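import Pool.Agent.Helper20.KS.Stm

/-!
# KS, package CNT: the Kakeya statement for sets of integers gives many cells
-/

set_option autoImplicit false

open Finset Filter Topology
open scoped Classical

namespace Pool.Agent.Helper17.KS

open Pool.Agent.Helper81.PK Pool.Agent.Helper20.KS

lemma enc_inj (n M : ℕ) (u v : Fin n → ℕ) (hu : ∀ k, u k < M) (hv : ∀ k, v k < M)
    (h : ∑ k, u k * M ^ (k : ℕ) = ∑ k, v k * M ^ (k : ℕ)) : u = v := by
  have h3 : finFunctionFinEquiv (fun k => (⟨u k, hu k⟩ : Fin M)) =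
      finFunctionFinEquiv (fun k => (⟨v k, hv k⟩ : Fin M)) := by
    apply Fin.ext
    rw [finFunctionFinEquiv_apply, finFunctionFinEquiv_apply]
    exact h
  have h4 := finFunctionFinEquiv.injective h3
  funext k
  have := congrFun h4 k
  simpa using this

lemma slice (n M : ℕ) (D : Finset (Fin n → ℕ)) (hD : ∀ v ∈ D, ∀ k, v k < M)
    (X : (Fin n → ℕ) → Fin n → ℤ) (n₀ : ℕ) (c η : ℝ)
    (hK : ∀ (D : Finset ℤ) (x : ℤ → ℤ), n₀ ≤ D.card →
      ∃ j : ℕ, (j : ℝ) ≤ (D.card : ℝ) ^ η ∧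
        (D.card : ℝ) ^ c ≤ ((D.image fun d => x d + j * d).card : ℝ)) (hn : n₀ ≤ D.card) :
    ∃ j : ℕ, (j : ℝ) ≤ (D.card : ℝ) ^ η ∧
      (D.card : ℝ) ^ c ≤ ((D.image fun v k => X v k + j * (v k : ℤ)).card : ℝ) := by
  set enc : (Fin n → ℕ) → ℤ := fun v => ∑ k, (v k : ℤ) * (M : ℤ) ^ (k : ℕ) with henc
  have hinj : Set.InjOn enc D := by
    intro u hu v hv h
    apply enc_inj n M u v (hD u hu) (hD v hv)
    have : ((∑ k, u k * M ^ (k : ℕ) : ℕ) : ℤ) = ((∑ k, v k * M ^ (k : ℕ) : ℕ) : ℤ) := by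
      push_cast; exact h
    exact_mod_cast this
  have hcard : (D.image enc).card = D.card := Finset.card_image_of_injOn hinj
  set dec : ℤ → (Fin n → ℕ) := Function.invFunOn enc D with hdec
  have hde : ∀ v ∈ D, dec (enc v) = v := fun v hv => hinj.leftInvOn_invFunOn hv
  obtain ⟨j, h1, h2⟩ := hK (D.image enc) (fun d => ∑ k, X (dec d) k * (M : ℤ) ^ (k : ℕ))
    (by rw [hcard]; exact hn)
  rw [hcard] at h1 h2
  refine ⟨j, h1, h2.trans ?_⟩
  have key : (D.image enc).image (fun d => (∑ k, X (dec d) k * (M : ℤ) ^ (k : ℕ)) + j * d) =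
      (D.image fun v k => X v k + j * (v k : ℤ)).image
        (fun z : Fin n → ℤ => ∑ k, z k * (M : ℤ) ^ (k : ℕ)) := by
    rw [Finset.image_image, Finset.image_image]
    apply Finset.image_congr
    intro v hv
    simp only [Function.comp, hde v hv]
    rw [henc]
    simp only [Finset.mul_sum, ← Finset.sum_add_distrib]
    apply Finset.sum_congr rfl
    intro k _
    ring
  rw [key]
  exact_mod_cast Finset.card_image_le

theorem cnt : S_CNT := by
  intro θ hθ hθ1 hK n hn w W hw hW ε hε hεθ η hη hη1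
  have hnpos : (0 : ℝ) < n := by exact_mod_cast hn
  obtain ⟨n₀, hn₀⟩ := hK ε hε (η / (2 * n)) (by positivity)
  have hT1 : Tendsto (fun R : ℕ => (R : ℝ) ^ (1 - η)) atTop atTop :=
    (tendsto_rpow_atTop (by linarith)).comp tendsto_natCast_atTop_atTop
  have hT2 : Tendsto (fun R : ℕ => (R : ℝ) ^ (η / 2)) atTop atTop :=
    (tendsto_rpow_atTop (by linarith)).comp tendsto_natCast_atTop_atTop
  have hE := (hT1.eventually_ge_atTop (2 * (W * (n₀ + 1)) + 2)).and
    ((hT2.eventually_ge_atTop (2 / w)).and (eventually_ge_atTop 1))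
  obtain ⟨R₀, hR₀⟩ := Filter.eventually_atTop.1 hE
  refine ⟨R₀, fun R hR D b hD hDc => ?_⟩
  obtain ⟨hA, hB, hR1⟩ := hR₀ R hR
  have hRpos : (0 : ℝ) < R := by exact_mod_cast hR1
  have hR1' : (1 : ℝ) ≤ R := by exact_mod_cast hR1
  set Q := (R : ℝ) ^ (1 - η) with hQ
  set M := ⌊Q⌋₊ with hM
  have hQ0 : 0 < Q := Real.rpow_pos_of_pos hRpos _
  have hMQ : (M : ℝ) ≤ Q := Nat.floor_le hQ0.le
  have hn0 : (0 : ℝ) ≤ W * (n₀ + 1) := by positivity
  have hQM : Q / 2 ≤ M := by
    have := Nat.lt_floor_add_one Q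
    linarith
  have hM1 : (1 : ℝ) ≤ M := by linarith
  have hM0 : (0 : ℝ) < M := by linarith
  have hM0' : 0 < M := by exact_mod_cast hM0
  have hDcard : n₀ ≤ D.card := by
    have h1 : (M : ℝ) ≤ (M : ℝ) ^ n := le_self_pow₀ hM1 (by omega)
    have h2 : W * (n₀ : ℝ) ≤ W * D.card := by nlinarith
    have h3 : (n₀ : ℝ) ≤ D.card := le_of_mul_le_mul_left h2 (by linarith)
    exact_mod_cast h3
  have hDM : (D.card : ℝ) ≤ (M : ℝ) ^ n := by
    have h1 : D ⊆ Fintype.piFinset (fun _ : Fin n => Finset.range M) := by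
      intro v hv
      rw [Fintype.mem_piFinset]
      intro k
      rw [Finset.mem_range]
      exact hD v hv k
    have h2 := Finset.card_le_card h1
    rw [Fintype.card_piFinset] at h2
    simp only [Finset.card_range, Finset.prod_const, Finset.card_univ, Fintype.card_fin] at h2
    exact_mod_cast h2
  choose j hj1 hj2 using fun h : ℕ => slice n M D hD
    (fun v k => ⌊(R : ℝ) * b v k + h * (v k / M)⌋) n₀ (θ - ε) (η / (2 * n)) hn₀ hDcard
  have hjR : ∀ h, (j h : ℝ) ≤ (R : ℝ) ^ (η / 2) := by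
    intro h
    refine (hj1 h).trans ?_
    calc (D.card : ℝ) ^ (η / (2 * n)) ≤ ((M : ℝ) ^ n) ^ (η / (2 * n)) :=
          Real.rpow_le_rpow (by positivity) hDM (by positivity)
      _ = (M : ℝ) ^ (η / 2) := by
          rw [← Real.rpow_natCast (M : ℝ) n, ← Real.rpow_mul hM0.le]
          congr 1
          field_simp
      _ ≤ (R : ℝ) ^ (η / 2) := by
          apply Real.rpow_le_rpow hM0.le _ (by linarith)
          refine hMQ.trans ?_
          rw [hQ]
          calc (R : ℝ) ^ (1 - η) ≤ (R : ℝ) ^ (1 : ℝ) :=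
                Real.rpow_le_rpow_of_exponent_le hR1' (by linarith)
            _ = R := Real.rpow_one _
  have hR2 : (1 : ℝ) ≤ (R : ℝ) ^ (η / 2) := Real.one_le_rpow hR1' (by linarith)
  have hsw : ∀ h : ℕ, h < M → ((h : ℝ) + M * j h) / R ≤ w := by
    intro h hh
    rw [div_le_iff₀ hRpos]
    have hh' : (h : ℝ) ≤ M := by exact_mod_cast hh.le
    have hB' : 2 ≤ w * (R : ℝ) ^ (η / 2) := by
      rw [div_le_iff₀ hw] at hB
      linarith
    have e1 : (R : ℝ) = Q * ((R : ℝ) ^ (η / 2) * (R : ℝ) ^ (η / 2)) := by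
      rw [hQ, ← Real.rpow_add hRpos, ← Real.rpow_add hRpos]
      have : 1 - η + (η / 2 + η / 2) = 1 := by ring
      rw [this, Real.rpow_one]
    calc (h : ℝ) + M * j h ≤ M + M * (R : ℝ) ^ (η / 2) := by
          have := mul_le_mul_of_nonneg_left (hjR h) hM0.le
          linarith
      _ ≤ 2 * (Q * (R : ℝ) ^ (η / 2)) := by
          have h1 : (M : ℝ) * (R : ℝ) ^ (η / 2) ≤ Q * (R : ℝ) ^ (η / 2) :=
            mul_le_mul_of_nonneg_right hMQ (by positivity)
          have h2 : (M : ℝ) ≤ M * (R : ℝ) ^ (η / 2) := le_mul_of_one_le_right hM0.le hR2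
          linarith
      _ ≤ (w * (R : ℝ) ^ (η / 2)) * (Q * (R : ℝ) ^ (η / 2)) :=
          mul_le_mul_of_nonneg_right hB' (by positivity)
      _ = w * R := by
          conv_rhs => rw [e1]
          ring
  set F : ℕ → Finset (Fin n → ℤ) := fun h =>
    D.image fun v k => ⌊(R : ℝ) * b v k + h * (v k / M)⌋ + j h * (v k : ℤ) with hF
  set S : Finset ((Fin n → ℤ) × ℤ) := (Finset.range M).biUnion fun h =>
    (F h).image fun z => (z, (h : ℤ) + M * j h) with hS
  have hScard : S.card = ∑ h ∈ Finset.range M, (F h).card := by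
    rw [hS, Finset.card_biUnion]
    · apply Finset.sum_congr rfl
      intro h _
      apply Finset.card_image_of_injective
      intro a b hab
      exact (Prod.mk.inj hab).1
    · intro h hh h' hh' hne
      rw [Function.onFun, Finset.disjoint_left]
      intro z hz hz'
      rw [Finset.mem_image] at hz hz'
      obtain ⟨a, _, ha⟩ := hz
      obtain ⟨a', _, ha'⟩ := hz'
      have e := congrArg Prod.snd (ha.trans ha'.symm)
      simp only at e
      apply hne
      have hhM : h < M := by simpa using hh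
      have hhM' : h' < M := by simpa using hh'
      have e' : h + M * j h = h' + M * j h' := by exact_mod_cast e
      have e2 := congrArg (fun x => x % M) e'
      simp only [Nat.add_mul_mod_self_left] at e2
      rwa [Nat.mod_eq_of_lt hhM, Nat.mod_eq_of_lt hhM'] at e2
  refine ⟨S, ?_, ?_⟩
  · have h1 : (M : ℝ) * (D.card : ℝ) ^ (θ - ε) ≤ S.card := by
      rw [hScard]
      push_cast
      calc (M : ℝ) * (D.card : ℝ) ^ (θ - ε)
          = ∑ h ∈ Finset.range M, (D.card : ℝ) ^ (θ - ε) := by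
            rw [Finset.sum_const, Finset.card_range, nsmul_eq_mul]
        _ ≤ _ := Finset.sum_le_sum fun h _ => hj2 h
    have hc0 : 0 < θ - ε := by linarith
    have hc1 : θ - ε ≤ 1 := by linarith
    have h2 : (M : ℝ) ^ ((n : ℝ) * (θ - ε)) ≤ W * (D.card : ℝ) ^ (θ - ε) := by
      calc (M : ℝ) ^ ((n : ℝ) * (θ - ε)) = ((M : ℝ) ^ n) ^ (θ - ε) := by
            rw [Real.rpow_mul hM0.le, Real.rpow_natCast]
        _ ≤ (W * D.card) ^ (θ - ε) := Real.rpow_le_rpow (by positivity) hDc hc0.le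
        _ = W ^ (θ - ε) * (D.card : ℝ) ^ (θ - ε) := Real.mul_rpow (by linarith) (by positivity)
        _ ≤ W * (D.card : ℝ) ^ (θ - ε) := by
            apply mul_le_mul_of_nonneg_right _ (by positivity)
            calc W ^ (θ - ε) ≤ W ^ (1 : ℝ) := Real.rpow_le_rpow_of_exponent_le hW hc1
              _ = W := Real.rpow_one _
    have h3 : (R : ℝ) ^ ((1 - η) * (1 + n * (θ - ε))) ≤
        2 ^ (n + 1) * (M * (M : ℝ) ^ ((n : ℝ) * (θ - ε))) := by
      have hex : 0 ≤ 1 + (n : ℝ) * (θ - ε) := by positivity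
      calc (R : ℝ) ^ ((1 - η) * (1 + n * (θ - ε))) = Q ^ (1 + (n : ℝ) * (θ - ε)) := by
            rw [hQ, ← Real.rpow_mul hRpos.le]
        _ ≤ (2 * M) ^ (1 + (n : ℝ) * (θ - ε)) :=
            Real.rpow_le_rpow hQ0.le (by linarith) hex
        _ = 2 ^ (1 + (n : ℝ) * (θ - ε)) * (M : ℝ) ^ (1 + (n : ℝ) * (θ - ε)) :=
            Real.mul_rpow (by norm_num) hM0.le
        _ ≤ 2 ^ (n + 1) * (M * (M : ℝ) ^ ((n : ℝ) * (θ - ε))) := by
            rw [Real.rpow_add hM0 1, Real.rpow_one]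
            apply mul_le_mul_of_nonneg_right _ (by positivity)
            calc (2 : ℝ) ^ (1 + (n : ℝ) * (θ - ε)) ≤ 2 ^ ((n + 1 : ℕ) : ℝ) := by
                  apply Real.rpow_le_rpow_of_exponent_le (by norm_num)
                  push_cast
                  nlinarith
              _ = 2 ^ (n + 1) := Real.rpow_natCast _ _
    calc (R : ℝ) ^ ((1 - η) * (1 + n * (θ - ε)))
        ≤ 2 ^ (n + 1) * (M * (M : ℝ) ^ ((n : ℝ) * (θ - ε))) := h3
      _ ≤ 2 ^ (n + 1) * (M * (W * (D.card : ℝ) ^ (θ - ε))) := by gcongr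
      _ = 2 ^ (n + 1) * W * (M * (D.card : ℝ) ^ (θ - ε)) := by ring
      _ ≤ 2 ^ (n + 1) * W * S.card := by gcongr
  · intro z hz
    rw [hS, Finset.mem_biUnion] at hz
    obtain ⟨h, hh, hz⟩ := hz
    rw [Finset.mem_range] at hh
    rw [Finset.mem_image] at hz
    obtain ⟨y, hy, rfl⟩ := hz
    rw [hF, Finset.mem_image] at hy
    obtain ⟨v, hv, rfl⟩ := hy
    refine ⟨v, hv, ((h : ℝ) + M * j h) / R, ⟨by positivity, hsw h hh⟩, ?_, ?_⟩
    · intro k
      have e : (R : ℝ) * (b v k + ((h : ℝ) + M * j h) / R * (v k / M)) =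
          ((R : ℝ) * b v k + h * (v k / M)) + (((j h : ℤ) * (v k : ℤ) : ℤ) : ℝ) := by
        push_cast
        field_simp
        ring
      rw [e, Int.floor_add_intCast]
    · have e : (R : ℝ) * (((h : ℝ) + M * j h) / R) = (((h : ℤ) + M * j h : ℤ) : ℝ) := by
        push_cast
        field_simp
      rw [e, Int.floor_intCast]

end Pool.Agent.Helper17.KS
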